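import Pool.Agent.helper20.Sz.Sys

/-!
# Acyclicity for flags of saturated sets (module SZ-L1 of MP_e07446_gt)
-/

namespace Pool.Agent.helper20.Sz
namespace L1

section general

variable {α : Type} [Fintype α] [DecidableEq α]

/-- chains contained in `C` -/
def Ch (cmp : α → α → Prop) (C 𝒟 : Finset α) : Prop :=
  𝒟 ⊆ C ∧ ∀ D ∈ 𝒟, ∀ D' ∈ 𝒟, cmp D D'

/-- boundary -/
def bd (y : Finset α → ZMod 2) (𝒟 : Finset α) : ZMod 2 :=
  ∑ D ∈ Finset.univ.filter (fun D => D ∉ 𝒟), y (insert D 𝒟)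

omit [Fintype α] in
theorem Ch.mono {cmp : α → α → Prop} {C 𝒟 𝒟' : Finset α} (h : Ch cmp C 𝒟) (hs : 𝒟' ⊆ 𝒟) :
    Ch cmp C 𝒟' :=
  ⟨hs.trans h.1, fun D hD D' hD' => h.2 D (hs hD) D' (hs hD')⟩

theorem bd_supp {cmp : α → α → Prop} {C : Finset α} {y : Finset α → ZMod 2}
    (hy : ∀ 𝒟, y 𝒟 ≠ 0 → Ch cmp C 𝒟) (𝒟 : Finset α) (h : bd y 𝒟 ≠ 0) : Ch cmp C 𝒟 := by
  obtain ⟨D, -, hD⟩ := Finset.exists_ne_zero_of_sum_ne_zero h
  exact (hy _ hD).mono (Finset.subset_insert _ _)

theorem bd_add (y z : Finset α → ZMod 2) : bd (y + z) = bd y + bd z := by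
  funext 𝒟
  simp [bd, Finset.sum_add_distrib]

theorem z2 (a : ZMod 2) : a + a = 0 := CharTwo.add_self_eq_zero a

theorem bd_bd (y : Finset α → ZMod 2) : bd (bd y) = 0 := by
  funext 𝒟
  simp only [bd, Pi.zero_apply]
  rw [Finset.sum_sigma']
  refine Finset.sum_involution (fun p _ => ⟨p.2, p.1⟩) ?_ ?_ ?_ ?_
  · rintro ⟨D, D'⟩ h
    simp only
    rw [Finset.insert_comm]
    exact z2 _
  · rintro ⟨D, D'⟩ h _ he
    simp only [Finset.mem_sigma, Finset.mem_filter, Finset.mem_univ, true_and,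
      Finset.mem_insert, not_or] at h
    simp only [Sigma.mk.injEq] at he
    exact h.2.1 he.1
  · rintro ⟨D, D'⟩ h
    simp only [Finset.mem_sigma, Finset.mem_filter, Finset.mem_univ, true_and,
      Finset.mem_insert, not_or] at h ⊢
    exact ⟨h.2.2, fun e => h.2.1 e.symm, h.1⟩
  · rintro ⟨D, D'⟩ h
    rfl

/-- no homology -/
def Acyc (cmp : α → α → Prop) (C : Finset α) : Prop :=
  ∀ y : Finset α → ZMod 2, (∀ 𝒟, y 𝒟 ≠ 0 → Ch cmp C 𝒟) → bd y = 0 →
    ∃ z : Finset α → ZMod 2, (∀ 𝒟, z 𝒟 ≠ 0 → Ch cmp C 𝒟) ∧ y = bd z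

theorem filter_erase {p : α} {𝒟 : Finset α} (hp : p ∈ 𝒟) :
    Finset.univ.filter (fun D => D ∉ 𝒟.erase p) =
      insert p (Finset.univ.filter (fun D => D ∉ 𝒟)) := by
  ext D
  simp only [Finset.mem_filter, Finset.mem_univ, true_and, Finset.mem_erase, not_and,
    Finset.mem_insert, not_imp_comm]
  tauto

/-- boundary in terms of the boundary of the slice -/
theorem bd_erase (y : Finset α → ZMod 2) {p : α} {𝒟 : Finset α} (hp : p ∈ 𝒟) :
    bd y (𝒟.erase p) = y 𝒟 +
      ∑ D ∈ Finset.univ.filter (fun D => D ∉ 𝒟), y (insert D (𝒟.erase p)) := by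
  rw [bd, filter_erase hp, Finset.sum_insert (by simp [hp]), Finset.insert_erase hp]

theorem ins_erase {p D : α} {𝒟 : Finset α} (hp : p ∈ 𝒟) (hD : D ∉ 𝒟) :
    (insert D 𝒟).erase p = insert D (𝒟.erase p) :=
  Finset.erase_insert_of_ne (by rintro rfl; exact hD hp)

theorem cone {cmp : α → α → Prop} {C : Finset α} {p : α} (hp : p ∈ C)
    (h1 : ∀ D ∈ C, cmp D p) (h2 : ∀ D ∈ C, cmp p D) : Acyc cmp C := by
  intro y hy hb
  refine ⟨fun 𝒟 => if p ∈ 𝒟 then y (𝒟.erase p) else 0, ?_, ?_⟩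
  · intro 𝒟 h
    by_cases hD : p ∈ 𝒟
    · simp only [hD, if_true] at h
      have := hy _ h
      refine ⟨?_, ?_⟩
      · intro D hD'
        by_cases e : D = p
        · rw [e]; exact hp
        · exact this.1 (Finset.mem_erase.2 ⟨e, hD'⟩)
      · intro D hD1 D' hD2
        by_cases e : D = p
        · subst e
          by_cases e' : D' = D
          · subst e'; exact h1 _ hp
          · exact h2 _ (this.1 (Finset.mem_erase.2 ⟨e', hD2⟩))
        · by_cases e' : D' = p
          · subst e'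
            exact h1 _ (this.1 (Finset.mem_erase.2 ⟨e, hD1⟩))
          · exact this.2 _ (Finset.mem_erase.2 ⟨e, hD1⟩) _ (Finset.mem_erase.2 ⟨e', hD2⟩)
    · simp [hD] at h
  · funext 𝒟
    by_cases hD : p ∈ 𝒟
    · have h0 : bd y (𝒟.erase p) = 0 := by rw [hb]; rfl
      rw [bd_erase y hD] at h0
      rw [bd]
      have : ∀ D ∈ Finset.univ.filter (fun D => D ∉ 𝒟),
          (if p ∈ insert D 𝒟 then y ((insert D 𝒟).erase p) else 0) =
            y (insert D (𝒟.erase p)) := by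
        intro D hD'
        simp only [Finset.mem_filter, Finset.mem_univ, true_and] at hD'
        rw [if_pos (Finset.mem_insert_of_mem hD), ins_erase hD hD']
      rw [Finset.sum_congr rfl this]
      exact CharTwo.add_eq_zero.1 h0
    · rw [bd, Finset.sum_eq_single p]
      · simp [hD]
      · intro D hD' hne
        have : p ∉ insert D 𝒟 := by
          simp only [Finset.mem_insert, not_or]
          exact ⟨fun e => hne e.symm, hD⟩
        simp [this]
      · intro h
        simp [hD] at h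

/-- the slice at `p` -/
def slice (p : α) (y : Finset α → ZMod 2) (𝒟 : Finset α) : ZMod 2 :=
  if p ∈ 𝒟 then 0 else y (insert p 𝒟)

theorem slice_supp {cmp : α → α → Prop} {C : Finset α} {p : α} {y : Finset α → ZMod 2}
    (hy : ∀ 𝒟, y 𝒟 ≠ 0 → Ch cmp (insert p C) 𝒟) (L : Finset α)
    (hL : ∀ D ∈ C, D ≠ p → cmp D p → D ∈ L) (𝒟 : Finset α) (h : slice p y 𝒟 ≠ 0) :
    Ch cmp L 𝒟 := by
  unfold slice at h
  by_cases hp : p ∈ 𝒟
  · simp [hp] at h
  · rw [if_neg hp] at h
    have := hy _ h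
    refine ⟨?_, ?_⟩
    · intro D hD
      have hne : D ≠ p := by rintro rfl; exact hp hD
      have h1 := this.1 (Finset.mem_insert_of_mem hD)
      exact hL D (Finset.mem_of_mem_insert_of_ne h1 hne) hne
        (this.2 _ (Finset.mem_insert_of_mem hD) _ (Finset.mem_insert_self _ _))
    · intro D hD D' hD'
      exact this.2 _ (Finset.mem_insert_of_mem hD) _ (Finset.mem_insert_of_mem hD')

theorem slice_bd {p : α} {y : Finset α → ZMod 2} (hb : bd y = 0) : bd (slice p y) = 0 := by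
  funext 𝒟
  simp only [bd, Pi.zero_apply]
  by_cases hp : p ∈ 𝒟
  · apply Finset.sum_eq_zero
    intro D _
    simp [slice, hp]
  · have h0 : bd y (insert p 𝒟) = 0 := by rw [hb]; rfl
    rw [bd] at h0
    rw [← h0]
    have : Finset.univ.filter (fun D => D ∉ 𝒟) =
        insert p (Finset.univ.filter (fun D => D ∉ insert p 𝒟)) := by
      ext D
      simp only [Finset.mem_filter, Finset.mem_univ, true_and, Finset.mem_insert, not_or]
      constructor
      · intro h
        by_cases e : D = p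
        · exact Or.inl e
        · exact Or.inr ⟨e, h⟩
      · rintro (rfl | h)
        · exact hp
        · exact h.2
    rw [this, Finset.sum_insert (by simp)]
    have h1 : slice p y (insert p 𝒟) = 0 := by simp [slice]
    rw [h1, zero_add]
    refine Finset.sum_congr rfl (fun D hD => ?_)
    simp only [Finset.mem_filter, Finset.mem_univ, true_and, Finset.mem_insert, not_or] at hD
    have : p ∉ insert D 𝒟 := by
      simp only [Finset.mem_insert, not_or]
      exact ⟨fun e => hD.1 e.symm, hp⟩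
    rw [slice, if_neg this, Finset.insert_comm]

/-- reduction to a smaller set -/
theorem reduce {cmp : α → α → Prop} {C L : Finset α} {p : α} (hpC : p ∉ C)
    (hLC : ∀ D ∈ L, D ∈ C ∧ cmp D p ∧ cmp p D) (hpp : cmp p p)
    {y z' e : Finset α → ZMod 2}
    (hy : ∀ 𝒟, y 𝒟 ≠ 0 → Ch cmp (insert p C) 𝒟) (hb : bd y = 0)
    (hz : ∀ 𝒟, z' 𝒟 ≠ 0 → Ch cmp L 𝒟)
    (he : ∀ 𝒟, e 𝒟 ≠ 0 → Ch cmp (insert p C) 𝒟) (heb : bd e = 0)
    (h : ∀ 𝒟, p ∈ 𝒟 → y 𝒟 = bd z' (𝒟.erase p) + e 𝒟) (hC : Acyc cmp C) :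
    ∃ z : Finset α → ZMod 2, (∀ 𝒟, z 𝒟 ≠ 0 → Ch cmp (insert p C) 𝒟) ∧ y = bd z + e := by
  set w : Finset α → ZMod 2 := fun 𝒟 => if p ∈ 𝒟 then z' (𝒟.erase p) else 0 with hw
  have hws : ∀ 𝒟, w 𝒟 ≠ 0 → Ch cmp (insert p C) 𝒟 := by
    intro 𝒟 h
    by_cases hD : p ∈ 𝒟
    · simp only [hw, hD, if_true] at h
      have := hz _ h
      refine ⟨?_, ?_⟩
      · intro D hD'
        by_cases e : D = p
        · rw [e]; exact Finset.mem_insert_self _ _
        · exact Finset.mem_insert_of_mem (hLC _ (this.1 (Finset.mem_erase.2 ⟨e, hD'⟩))).1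
      · intro D hD1 D' hD2
        by_cases e : D = p
        · subst e
          by_cases e' : D' = D
          · subst e'; exact hpp
          · exact (hLC _ (this.1 (Finset.mem_erase.2 ⟨e', hD2⟩))).2.2
        · by_cases e' : D' = p
          · subst e'
            exact (hLC _ (this.1 (Finset.mem_erase.2 ⟨e, hD1⟩))).2.1
          · exact this.2 _ (Finset.mem_erase.2 ⟨e, hD1⟩) _ (Finset.mem_erase.2 ⟨e', hD2⟩)
    · simp [hw, hD] at h
  have hbw : ∀ 𝒟, p ∈ 𝒟 → bd w 𝒟 = bd z' (𝒟.erase p) := by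
    intro 𝒟 hp
    rw [bd_erase z' hp]
    have h0 : z' 𝒟 = 0 := by
      by_contra hne
      exact hpC (hLC _ ((hz _ hne).1 hp)).1
    rw [h0, zero_add, bd]
    refine Finset.sum_congr rfl (fun D hD => ?_)
    simp only [Finset.mem_filter, Finset.mem_univ, true_and] at hD
    simp only [hw]
    rw [if_pos (Finset.mem_insert_of_mem hp), ins_erase hp hD]
  obtain ⟨z2', hz2, hz2'⟩ := hC (y + bd w + e) (by
    intro 𝒟 hne
    have hp : p ∉ 𝒟 := by
      intro hp
      apply hne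
      simp only [Pi.add_apply]
      rw [h 𝒟 hp, hbw 𝒟 hp]
      have := z2 (bd z' (𝒟.erase p))
      have h2 := z2 (e 𝒟)
      linear_combination this + h2
    have : Ch cmp (insert p C) 𝒟 := by
      by_contra hn
      apply hne
      have a1 : y 𝒟 = 0 := by by_contra h'; exact hn (hy _ h')
      have a2 : bd w 𝒟 = 0 := by by_contra h'; exact hn (bd_supp hws _ h')
      have a3 : e 𝒟 = 0 := by by_contra h'; exact hn (he _ h')
      simp [a1, a2, a3]
    refine ⟨?_, this.2⟩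
    intro D hD
    exact Finset.mem_of_mem_insert_of_ne (this.1 hD) (by rintro rfl; exact hp hD)) (by
    rw [bd_add, bd_add, hb, bd_bd, heb]; simp)
  refine ⟨w + z2', ?_, ?_⟩
  · intro 𝒟 hne
    by_contra hn
    apply hne
    have a1 : w 𝒟 = 0 := by by_contra h'; exact hn (hws _ h')
    have a2 : z2' 𝒟 = 0 := by
      by_contra h'
      exact hn ⟨(hz2 _ h').1.trans (Finset.subset_insert _ _), (hz2 _ h').2⟩
    simp [a1, a2]
  · rw [bd_add, ← hz2']
    funext 𝒟
    simp only [Pi.add_apply]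
    have := z2 (bd w 𝒟)
    have h2 := z2 (e 𝒟)
    linear_combination - this - h2

theorem add {cmp : α → α → Prop} (hs : ∀ a b, cmp a b → cmp b a) (hr : ∀ a, cmp a a)
    {C : Finset α} {p : α} (hpC : p ∉ C) [DecidablePred fun D => cmp D p]
    (hC : Acyc cmp C) (hL : Acyc cmp (C.filter (fun D => cmp D p))) :
    Acyc cmp (insert p C) := by
  intro y hy hb
  obtain ⟨z', hz, hz'⟩ := hL (slice p y)
    (slice_supp hy _ (fun D hD _ hc => Finset.mem_filter.2 ⟨hD, hc⟩)) (slice_bd hb)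
  obtain ⟨z, h1, h2⟩ := reduce (e := 0) hpC
    (L := C.filter (fun D => cmp D p))
    (fun D hD => ⟨(Finset.mem_filter.1 hD).1, (Finset.mem_filter.1 hD).2,
      hs _ _ (Finset.mem_filter.1 hD).2⟩) (hr p) hy hb hz (fun _ h => absurd rfl h)
    (by funext; simp [bd]) (by
      intro 𝒟 hp
      rw [← hz', slice, if_neg (Finset.notMem_erase _ _), Finset.insert_erase hp]
      simp) hC
  exact ⟨z, h1, by simpa using h2⟩

end general

section flags

variable {E : Type} [Fintype E] [DecidableEq E]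

/-- comparability -/
def Cm (D D' : Finset E) : Prop := D ⊆ D' ∨ D' ⊆ D

omit [Fintype E] [DecidableEq E] in
theorem Cm.symm (a b : Finset E) (h : Cm a b) : Cm b a := Or.symm h

omit [Fintype E] [DecidableEq E] in
theorem Cm.refl (a : Finset E) : Cm a a := Or.inl (Finset.Subset.refl _)

/-- saturated -/
def Sat (r : E → E → Prop) (D : Finset E) : Prop := ∀ x y, r x y → (x ∈ D ↔ y ∈ D)

open Classical in
/-- the open interval of saturated sets -/
noncomputable def Q (r : E → E → Prop) (A B : Finset E) : Finset (Finset E) :=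
  Finset.univ.filter fun D => A ⊂ D ∧ D ⊂ B ∧ Sat r D

theorem mem_Q {r : E → E → Prop} {A B D : Finset E} : D ∈ Q r A B ↔ A ⊂ D ∧ D ⊂ B ∧ Sat r D := by
  simp [Q]

theorem flg_iff {r : E → E → Prop} {A B : Finset E} {𝒟 : Finset (Finset E)} :
    Flg r A B 𝒟 ↔ Ch Cm (Q r A B) 𝒟 := by
  constructor
  · intro h
    exact ⟨fun D hD => mem_Q.2 ⟨h.low D hD, h.upp D hD, h.sat D hD⟩, h.chain⟩
  · intro h
    exact ⟨fun D hD => (mem_Q.1 (h.1 hD)).1, fun D hD => (mem_Q.1 (h.1 hD)).2.1,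
      fun D hD => (mem_Q.1 (h.1 hD)).2.2, h.2⟩

omit [Fintype E] [DecidableEq E] in
/-- predecessor -/
theorem exists_low {A D : Finset E} {𝒟 : Finset (Finset E)} (hAD : A ⊂ D) (hD : D ∉ 𝒟)
    (hA : ∀ D' ∈ 𝒟, A ⊂ D')
    (hch : ∀ D1 ∈ 𝒟, ∀ D2 ∈ 𝒟, D1 ⊆ D2 ∨ D2 ⊆ D1) :
    ∃ L, A ⊆ L ∧ L ⊂ D ∧ (L = A ∨ L ∈ 𝒟) ∧ ∀ D' ∈ 𝒟, D' ⊆ D → D' ⊆ L := by
  classical
  by_cases h : (𝒟.filter (fun D' => D' ⊆ D)).Nonempty
  · obtain ⟨L, hL, hm⟩ := Finset.exists_max_image _ (fun D' => D'.card) h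
    rw [Finset.mem_filter] at hL
    refine ⟨L, (hA L hL.1).subset, ?_, Or.inr hL.1, ?_⟩
    · exact Finset.ssubset_iff_subset_ne.2 ⟨hL.2, by rintro rfl; exact hD hL.1⟩
    · intro D' hD' hs
      rcases hch D' hD' L hL.1 with h1 | h1
      · exact h1
      · have := hm D' (Finset.mem_filter.2 ⟨hD', hs⟩)
        exact (Finset.eq_of_subset_of_card_le h1 this).symm.subset
  · refine ⟨A, Finset.Subset.refl _, hAD, Or.inl rfl, ?_⟩
    intro D' hD' hs
    exact absurd ⟨D', Finset.mem_filter.2 ⟨hD', hs⟩⟩ h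

omit [Fintype E] [DecidableEq E] in
/-- successor -/
theorem exists_upp {B D : Finset E} {𝒟 : Finset (Finset E)} (hBD : D ⊂ B) (hD : D ∉ 𝒟)
    (hB : ∀ D' ∈ 𝒟, D' ⊂ B)
    (hch : ∀ D1 ∈ 𝒟, ∀ D2 ∈ 𝒟, D1 ⊆ D2 ∨ D2 ⊆ D1) :
    ∃ U, U ⊆ B ∧ D ⊂ U ∧ (U = B ∨ U ∈ 𝒟) ∧ ∀ D' ∈ 𝒟, D ⊆ D' → U ⊆ D' := by
  classical
  by_cases h : (𝒟.filter (fun D' => D ⊆ D')).Nonempty
  · obtain ⟨L, hL, hm⟩ := Finset.exists_min_image _ (fun D' => D'.card) h
    rw [Finset.mem_filter] at hL
    refine ⟨L, (hB L hL.1).subset, ?_, Or.inr hL.1, ?_⟩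
    · exact Finset.ssubset_iff_subset_ne.2 ⟨hL.2, by rintro rfl; exact hD hL.1⟩
    · intro D' hD' hs
      rcases hch L hL.1 D' hD' with h1 | h1
      · exact h1
      · have := hm D' (Finset.mem_filter.2 ⟨hD', hs⟩)
        exact (Finset.eq_of_subset_of_card_le h1 this).symm.subset
  · refine ⟨B, Finset.Subset.refl _, hBD, Or.inl rfl, ?_⟩
    intro D' hD' hs
    exact absurd ⟨D', Finset.mem_filter.2 ⟨hD', hs⟩⟩ h

/-- the data around a member of a flag -/
theorem around {r : E → E → Prop} {A B D : Finset E} {𝒟 : Finset (Finset E)} (hD : D ∉ 𝒟)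
    (h : Flg r A B (insert D 𝒟)) :
    ∃ L U : Finset E, A ⊆ L ∧ L ⊂ D ∧ D ⊂ U ∧ U ⊆ B ∧ (L = A ∨ L ∈ 𝒟) ∧ (U = B ∨ U ∈ 𝒟) ∧
      (∀ D' ∈ 𝒟, D' ⊆ D → D' ⊆ L) ∧ (∀ D' ∈ 𝒟, D ⊆ D' → U ⊆ D') := by
  obtain ⟨L, h1, h2, h3, h4⟩ := exists_low (h.low D (Finset.mem_insert_self _ _)) hD
    (fun D' hD' => h.low D' (Finset.mem_insert_of_mem hD'))
    (fun D1 h1 D2 h2 => h.chain D1 (Finset.mem_insert_of_mem h1) D2 (Finset.mem_insert_of_mem h2))
  obtain ⟨U, h5, h6, h7, h8⟩ := exists_upp (h.upp D (Finset.mem_insert_self _ _)) hD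
    (fun D' hD' => h.upp D' (Finset.mem_insert_of_mem hD'))
    (fun D1 h1 D2 h2 => h.chain D1 (Finset.mem_insert_of_mem h1) D2 (Finset.mem_insert_of_mem h2))
  exact ⟨L, U, h1, h2, h6, h5, h3, h7, h4, h8⟩

/-- full flags are maximal -/
theorem full_max {r : E → E → Prop} {A B D : Finset E} {𝒟 : Finset (Finset E)}
    (hf : FullFlg r A B 𝒟) (hD : D ∉ 𝒟) (h : Flg r A B (insert D 𝒟)) : False := by
  obtain ⟨L, U, h1, h2, h3, h4, -, -, h7, h8⟩ := around hD h
  obtain ⟨x, hx, hxL⟩ := Finset.exists_of_ssubset h2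
  obtain ⟨y, hy, hyD⟩ := Finset.exists_of_ssubset h3
  have hrxy : r x y := by
    refine hf.2 x (h4 (h3.subset hx)) (fun hxA => hxL (h1 hxA)) y (h4 hy)
      (fun hyA => hyD (h2.subset (h1 hyA))) ?_
    intro D' hD'
    rcases h.chain D' (Finset.mem_insert_of_mem hD') D (Finset.mem_insert_self _ _) with hc | hc
    · have := h7 D' hD' hc
      exact ⟨fun hx' => absurd (this hx') hxL, fun hy' => absurd (hc hy') hyD⟩
    · have := h8 D' hD' hc
      exact ⟨fun _ => this hy, fun _ => hc hx⟩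
  exact hyD ((h.sat D (Finset.mem_insert_self _ _) x y hrxy).1 hx)

open Classical in
/-- the characteristic function of full flags -/
noncomputable def full (r : E → E → Prop) (A B : Finset E) (c : ZMod 2)
    (𝒟 : Finset (Finset E)) : ZMod 2 := if FullFlg r A B 𝒟 then c else 0

open scoped symmDiff

/-- the other completion -/
theorem other {r : E → E → Prop} (hr : Equivalence r) {A B D : Finset E}
    {𝒟 : Finset (Finset E)} (hA : Sat r A) (hB : Sat r B) (hD : D ∉ 𝒟)
    (h : FullFlg r A B (insert D 𝒟)) (M : Finset E)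
    (hM : ∀ x, x ∈ M ↔ x ∈ B ∧ x ∉ A ∧ ∃ y, y ∈ B ∧ y ∉ A ∧ (∀ D ∈ 𝒟, (x ∈ D ↔ y ∈ D)) ∧
      ¬ r x y) :
    D ∆ M ∉ 𝒟 ∧ FullFlg r A B (insert (D ∆ M) 𝒟) ∧ D ∆ M ≠ D := by
  obtain ⟨L, U, h1, h2, h3, h4, h5, h6, h7, h8⟩ := around hD h.1
  have hDi : D ∈ insert D 𝒟 := Finset.mem_insert_self _ _
  have hch : ∀ D' ∈ 𝒟, D' ⊆ D ∨ D ⊆ D' :=
    fun D' hD' => h.1.chain D' (Finset.mem_insert_of_mem hD') D hDi
  have hsat := h.1.sat D hDi
  have hLs : Sat r L := by
    rcases h5 with rfl | h5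
    · exact hA
    · exact h.1.sat L (Finset.mem_insert_of_mem h5)
  have hUs : Sat r U := by
    rcases h6 with rfl | h6
    · exact hB
    · exact h.1.sat U (Finset.mem_insert_of_mem h6)
  -- points of the cut block are not separated by `𝒟`
  have hsep : ∀ x y, x ∈ U → x ∉ L → y ∈ U → y ∉ L → ∀ D' ∈ 𝒟, (x ∈ D' ↔ y ∈ D') := by
    intro x y hx hx' hy hy' D' hD'
    rcases hch D' hD' with hc | hc
    · have := h7 D' hD' hc
      exact ⟨fun a => absurd (this a) hx', fun a => absurd (this a) hy'⟩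
    · have := h8 D' hD' hc
      exact ⟨fun _ => this hy, fun _ => this hx⟩
  have hsep2 : ∀ x y, x ∉ A → y ∈ B → (∀ D' ∈ 𝒟, (x ∈ D' ↔ y ∈ D')) →
      x ∈ D → y ∉ D → x ∉ L ∧ y ∈ U := by
    intro x y hxA hy hs hxD hyD
    refine ⟨?_, ?_⟩
    · intro hxL
      rcases h5 with rfl | h5
      · exact hxA hxL
      · exact hyD (h2.subset ((hs L h5).1 hxL))
    · rcases h6 with rfl | h6
      · exact hy
      · exact (hs U h6).1 (h3.subset hxD)
  obtain ⟨x1, hx1, hx1L⟩ := Finset.exists_of_ssubset h2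
  obtain ⟨y1, hy1, hy1D⟩ := Finset.exists_of_ssubset h3
  have hx1U : x1 ∈ U := h3.subset hx1
  have hy1L : y1 ∉ L := fun a => hy1D (h2.subset a)
  have hrxy : ¬ r x1 y1 := fun a => hy1D ((hsat x1 y1 a).1 hx1)
  have hME : ∀ x, x ∈ M ↔ x ∈ U ∧ x ∉ L := by
    intro x
    rw [hM]
    constructor
    · rintro ⟨hxB, hxA, y, hyB, hyA, hs, hn⟩
      by_cases hxD : x ∈ D
      · by_cases hyD : y ∈ D
        · exfalso
          apply hn
          apply h.2 x hxB hxA y hyB hyA
          intro D' hD'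
          rcases Finset.mem_insert.1 hD' with rfl | hD'
          · exact ⟨fun _ => hyD, fun _ => hxD⟩
          · exact hs D' hD'
        · exact ⟨h3.subset hxD, (hsep2 x y hxA hyB hs hxD hyD).1⟩
      · by_cases hyD : y ∈ D
        · exact ⟨(hsep2 y x hyA hxB (fun D' hD' => (hs D' hD').symm) hyD hxD).2,
            fun a => hxD (h2.subset a)⟩
        · exfalso
          apply hn
          apply h.2 x hxB hxA y hyB hyA
          intro D' hD'
          rcases Finset.mem_insert.1 hD' with rfl | hD'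
          · exact ⟨fun a => absurd a hxD, fun a => absurd a hyD⟩
          · exact hs D' hD'
    · rintro ⟨hxU, hxL⟩
      have hxA : x ∉ A := fun a => hxL (h1 a)
      refine ⟨h4 hxU, hxA, ?_⟩
      by_cases hxx : r x x1
      · refine ⟨y1, h4 hy1, fun a => hy1L (h1 a), hsep x y1 hxU hxL hy1 hy1L, ?_⟩
        intro a
        exact hrxy (hr.trans (hr.symm hxx) a)
      · exact ⟨x1, h4 hx1U, fun a => hx1L (h1 a), hsep x x1 hxU hxL hx1U hx1L, hxx⟩
  have hN : ∀ x, x ∈ D ∆ M ↔ x ∈ L ∨ (x ∈ U ∧ x ∉ D) := by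
    intro x
    rw [Finset.mem_symmDiff, hME]
    have a1 : x ∈ L → x ∈ D := fun a => h2.subset a
    have a2 : x ∈ D → x ∈ U := fun a => h3.subset a
    tauto
  have hx1N : x1 ∉ D ∆ M := by
    rw [hN]
    rintro (a | a)
    · exact hx1L a
    · exact a.2 hx1
  have hy1N : y1 ∈ D ∆ M := (hN y1).2 (Or.inr ⟨hy1, hy1D⟩)
  have hLN : L ⊆ D ∆ M := fun x hx => (hN x).2 (Or.inl hx)
  have hNU : D ∆ M ⊆ U := by
    intro x hx
    rcases (hN x).1 hx with a | a
    · exact h3.subset (h2.subset a)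
    · exact a.1
  have hch' : ∀ D' ∈ 𝒟, D' ⊆ D ∆ M ∨ D ∆ M ⊆ D' := by
    intro D' hD'
    rcases hch D' hD' with hc | hc
    · exact Or.inl ((h7 D' hD' hc).trans hLN)
    · exact Or.inr (hNU.trans (h8 D' hD' hc))
  refine ⟨?_, ⟨⟨?_, ?_, ?_, ?_⟩, ?_⟩, ?_⟩
  · intro hmem
    rcases hch _ hmem with hc | hc
    · exact hy1D (hc hy1N)
    · exact hx1N (hc hx1)
  · intro D' hD'
    rcases Finset.mem_insert.1 hD' with rfl | hD'
    · exact Finset.ssubset_iff_subset_ne.2 ⟨h1.trans hLN, by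
        intro he
        exact hy1L (h1 (he ▸ hy1N))⟩
    · exact h.1.low D' (Finset.mem_insert_of_mem hD')
  · intro D' hD'
    rcases Finset.mem_insert.1 hD' with rfl | hD'
    · exact Finset.ssubset_iff_subset_ne.2 ⟨hNU.trans h4, by
        intro he
        exact hx1N (he ▸ h4 hx1U)⟩
    · exact h.1.upp D' (Finset.mem_insert_of_mem hD')
  · intro D' hD'
    rcases Finset.mem_insert.1 hD' with rfl | hD'
    · intro x y hxy
      rw [hN, hN, hLs x y hxy, hUs x y hxy, hsat x y hxy]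
    · exact h.1.sat D' (Finset.mem_insert_of_mem hD')
  · intro D1 hD1 D2 hD2
    rcases Finset.mem_insert.1 hD1 with rfl | hD1
    · rcases Finset.mem_insert.1 hD2 with rfl | hD2
      · exact Or.inl (Finset.Subset.refl _)
      · exact (hch' D2 hD2).symm
    · rcases Finset.mem_insert.1 hD2 with rfl | hD2
      · exact hch' D1 hD1
      · exact h.1.chain D1 (Finset.mem_insert_of_mem hD1) D2 (Finset.mem_insert_of_mem hD2)
  · intro x hxB hxA y hyB hyA hs
    have hs' : ∀ D' ∈ 𝒟, (x ∈ D' ↔ y ∈ D') := fun D' hD' => hs D' (Finset.mem_insert_of_mem hD')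
    have hsN := hs (D ∆ M) (Finset.mem_insert_self _ _)
    by_cases hxD : x ∈ D
    · by_cases hyD : y ∈ D
      · apply h.2 x hxB hxA y hyB hyA
        intro D' hD'
        rcases Finset.mem_insert.1 hD' with rfl | hD'
        · exact ⟨fun _ => hyD, fun _ => hxD⟩
        · exact hs' D' hD'
      · exfalso
        have hh := hsep2 x y hxA hyB hs' hxD hyD
        have : y ∈ D ∆ M := (hN y).2 (Or.inr ⟨hh.2, hyD⟩)
        rcases (hN x).1 (hsN.2 this) with a | a
        · exact hh.1 a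
        · exact a.2 hxD
    · by_cases hyD : y ∈ D
      · exfalso
        have hh := hsep2 y x hyA hxB (fun D' hD' => (hs' D' hD').symm) hyD hxD
        have : x ∈ D ∆ M := (hN x).2 (Or.inr ⟨hh.2, hxD⟩)
        rcases (hN y).1 (hsN.1 this) with a | a
        · exact hh.1 a
        · exact a.2 hyD
      · apply h.2 x hxB hxA y hyB hyA
        intro D' hD'
        rcases Finset.mem_insert.1 hD' with rfl | hD'
        · exact ⟨fun a => absurd a hxD, fun a => absurd a hyD⟩
        · exact hs' D' hD'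
  · intro he
    rw [he] at hx1N
    exact hx1N hx1

/-- the sum of all full flags is a cycle -/
theorem full_bd {r : E → E → Prop} (hr : Equivalence r) {A B : Finset E}
    (hA : Sat r A) (hB : Sat r B) (c : ZMod 2) : bd (full r A B c) = 0 := by
  classical
  funext 𝒟
  rw [Pi.zero_apply, bd]
  set M : Finset E := Finset.univ.filter fun x => x ∈ B ∧ x ∉ A ∧
    ∃ y, y ∈ B ∧ y ∉ A ∧ (∀ D ∈ 𝒟, (x ∈ D ↔ y ∈ D)) ∧ ¬ r x y with hMd
  have hM : ∀ x, x ∈ M ↔ x ∈ B ∧ x ∉ A ∧ ∃ y, y ∈ B ∧ y ∉ A ∧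
      (∀ D ∈ 𝒟, (x ∈ D ↔ y ∈ D)) ∧ ¬ r x y := by
    intro x; simp [hMd]
  have h0 : ∑ D ∈ Finset.univ.filter (fun D => D ∉ 𝒟), full r A B c (insert D 𝒟) =
      ∑ D ∈ Finset.univ.filter (fun D => D ∉ 𝒟 ∧ FullFlg r A B (insert D 𝒟)), c := by
    rw [← Finset.filter_filter, Finset.sum_filter (fun D => FullFlg r A B (insert D 𝒟))]
    rfl
  rw [h0]
  refine Finset.sum_involution (fun D _ => D ∆ M) ?_ ?_ ?_ ?_
  · intro D _; exact z2 c
  · intro D hD _
    simp only [Finset.mem_filter, Finset.mem_univ, true_and] at hD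
    exact (other hr hA hB hD.1 hD.2 M hM).2.2
  · intro D hD
    simp only [Finset.mem_filter, Finset.mem_univ, true_and] at hD ⊢
    have := other hr hA hB hD.1 hD.2 M hM
    exact ⟨this.1, this.2.1⟩
  · intro D _
    exact symmDiff_symmDiff_cancel_right M D

theorem full_supp {r : E → E → Prop} {A B : Finset E} {c : ZMod 2} (𝒟 : Finset (Finset E))
    (h : full r A B c 𝒟 ≠ 0) : FullFlg r A B 𝒟 := by
  classical
  unfold full at h
  by_contra hn
  rw [if_neg hn] at h
  exact h rfl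

/-- the complex of flags which do not contain the coatom `B'` has no homology -/
theorem acyc_part {r : E → E → Prop} {A B Z B' : Finset E} {x0 : E}
    (hx0B : x0 ∈ B) (hx0A : x0 ∉ A) (hA : Sat r A) (hB : Sat r B)
    (hZ : ∀ y, y ∈ Z ↔ r x0 y) (hr : Equivalence r) (hB' : B' = B \ Z) (hAB' : A ≠ B')
    (hAB : A ⊂ B) : Acyc Cm ((Q r A B).erase B') := by
  classical
  have hZs : ∀ D, Sat r D → x0 ∈ D → Z ⊆ D := fun D hD hx y hy => (hD x0 y ((hZ y).1 hy)).1 hx
  have hZd : ∀ D, Sat r D → x0 ∉ D → ∀ y ∈ D, y ∉ Z :=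
    fun D hD hx y hy hyZ => hx ((hD x0 y ((hZ y).1 hyZ)).2 hy)
  have hx0Z : x0 ∈ Z := (hZ x0).2 (hr.refl x0)
  have hZsat : Sat r Z := by
    intro x y hxy
    rw [hZ, hZ]
    exact ⟨fun a => hr.trans a hxy, fun a => hr.trans a (hr.symm hxy)⟩
  have hun : ∀ D, Sat r D → Sat r (D ∪ Z) := by
    intro D hD x y hxy
    rw [Finset.mem_union, Finset.mem_union, hD x y hxy, hZsat x y hxy]
  have hx0B' : x0 ∉ B' := by rw [hB']; simp [hx0Z]
  -- the apex over `D`
  have key : ∀ D, A ⊆ D → D ⊂ B → Sat r D → x0 ∉ D → D ≠ B' →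
      D ∪ Z ∈ ((Q r A B).erase B').filter (fun D => x0 ∈ D) := by
    intro D hAD hDB hDs hx hne
    rw [Finset.mem_filter, Finset.mem_erase, mem_Q]
    refine ⟨⟨?_, ?_, ?_, hun D hDs⟩, Finset.mem_union_right _ hx0Z⟩
    · intro he
      exact hx0B' (he ▸ Finset.mem_union_right _ hx0Z)
    · exact Finset.ssubset_iff_subset_ne.2 ⟨hAD.trans Finset.subset_union_left, by
        intro he
        exact hx0A (he.symm ▸ Finset.mem_union_right _ hx0Z)⟩
    · refine Finset.ssubset_iff_subset_ne.2 ⟨Finset.union_subset hDB.subset (hZs B hB hx0B), ?_⟩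
      intro he
      apply hne
      rw [hB', ← he]
      ext y
      simp only [Finset.mem_sdiff, Finset.mem_union]
      have := hZd D hDs hx y
      tauto
  set P1 := ((Q r A B).erase B').filter (fun D => x0 ∈ D) with hP1
  set P0 := ((Q r A B).erase B').filter (fun D => x0 ∉ D) with hP0
  have hsplit : (Q r A B).erase B' = P1 ∪ P0 := (Finset.filter_union_filter_not_eq _ _).symm
  rw [hsplit]
  suffices H : ∀ T : Finset (Finset E), T ⊆ P0 → Acyc Cm (P1 ∪ T) from H P0 (Finset.Subset.refl _)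
  intro T
  refine Finset.induction_on_max_value (fun D : Finset E => D.card) T ?_ ?_
  · intro _
    rw [Finset.union_empty]
    have hap := key A (Finset.Subset.refl _) hAB hA hx0A hAB'
    have hc : ∀ D ∈ P1, A ∪ Z ⊆ D := by
      intro D hD
      rw [hP1, Finset.mem_filter, Finset.mem_erase, mem_Q] at hD
      exact Finset.union_subset hD.1.2.1.subset (hZs D hD.1.2.2.2 hD.2)
    exact cone hap (fun D hD => Or.inr (hc D hD)) (fun D hD => Or.inl (hc D hD))
  · intro D T hDT hmax ih hTP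
    have hDP : D ∈ P0 := hTP (Finset.mem_insert_self _ _)
    rw [Finset.union_insert]
    have hDP' := hDP
    rw [hP0, Finset.mem_filter, Finset.mem_erase, mem_Q] at hDP'
    have hDn : D ∉ P1 ∪ T := by
      rw [Finset.mem_union, not_or]
      refine ⟨fun a => ?_, hDT⟩
      rw [hP1, Finset.mem_filter] at a
      exact hDP'.2 a.2
    refine add Cm.symm Cm.refl hDn (ih fun _ a => hTP (Finset.mem_insert_of_mem a)) ?_
    have hap := key D hDP'.1.2.1.subset hDP'.1.2.2.1 hDP'.1.2.2.2 hDP'.2 hDP'.1.1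
    have hall : ∀ D' ∈ (P1 ∪ T).filter (fun D' => Cm D' D), Cm D' (D ∪ Z) := by
      intro D' hD'
      rw [Finset.mem_filter, Finset.mem_union] at hD'
      obtain ⟨h1 | h1, h2⟩ := hD'
      · rw [hP1, Finset.mem_filter, Finset.mem_erase, mem_Q] at h1
        rcases h2 with h2 | h2
        · exact absurd (h2 h1.2) hDP'.2
        · exact Or.inr (Finset.union_subset h2 (hZs D' h1.1.2.2.2 h1.2))
      · rcases h2 with h2 | h2
        · exact Or.inl (h2.trans Finset.subset_union_left)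
        · have := Finset.eq_of_subset_of_card_le h2 (hmax D' h1)
          rw [← this] at h1
          exact absurd h1 hDT
    refine cone (p := D ∪ Z) ?_ hall (fun D' hD' => Cm.symm _ _ (hall D' hD'))
    rw [Finset.mem_filter]
    exact ⟨Finset.mem_union_left _ hap, Or.inr Finset.subset_union_left⟩

/-- ungraded version -/
theorem main {r : E → E → Prop} (hr : Equivalence r) (A : Finset E) (hA : Sat r A) :
    ∀ (n : ℕ) (B : Finset E), (B \ A).card ≤ n → A ⊂ B → Sat r B →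
    ∀ y : Finset (Finset E) → ZMod 2, (∀ 𝒟, y 𝒟 ≠ 0 → Ch Cm (Q r A B) 𝒟) → bd y = 0 →
    ∃ (z : Finset (Finset E) → ZMod 2) (c : ZMod 2),
      (∀ 𝒟, z 𝒟 ≠ 0 → Ch Cm (Q r A B) 𝒟) ∧ y = bd z + full r A B c := by
  classical
  intro n
  induction n with
  | zero =>
    intro B hc hAB
    exfalso
    obtain ⟨x, hx, hxA⟩ := Finset.exists_of_ssubset hAB
    have : x ∈ B \ A := Finset.mem_sdiff.2 ⟨hx, hxA⟩
    rw [Finset.card_eq_zero.1 (Nat.le_zero.1 hc)] at this
    exact absurd this (Finset.notMem_empty x)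
  | succ n ih =>
    intro B hcard hAB hB y hy hb
    obtain ⟨x0, hx0B, hx0A⟩ := Finset.exists_of_ssubset hAB
    set Z : Finset E := Finset.univ.filter (fun y => r x0 y) with hZd
    have hZ : ∀ y, y ∈ Z ↔ r x0 y := by intro y; simp [hZd]
    have hx0Z : x0 ∈ Z := (hZ x0).2 (hr.refl x0)
    have hZsat : Sat r Z := by
      intro x y hxy
      rw [hZ, hZ]
      exact ⟨fun a => hr.trans a hxy, fun a => hr.trans a (hr.symm hxy)⟩
    have hZB : Z ⊆ B := fun y hy => (hB x0 y ((hZ y).1 hy)).1 hx0B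
    have hZA : ∀ y ∈ A, y ∉ Z := fun y hy hyZ => hx0A ((hA x0 y ((hZ y).1 hyZ)).2 hy)
    set B' := B \ Z with hB'
    have hB's : Sat r B' := by
      intro x y hxy
      rw [hB', Finset.mem_sdiff, Finset.mem_sdiff, hB x y hxy, hZsat x y hxy]
    have hB'B : B' ⊂ B := Finset.ssubset_iff_subset_ne.2 ⟨Finset.sdiff_subset, by
      intro he
      have : x0 ∈ B' := he ▸ hx0B
      rw [hB', Finset.mem_sdiff] at this
      exact this.2 hx0Z⟩
    have hAB's : A ⊆ B' := fun x hx => Finset.mem_sdiff.2 ⟨hAB.subset hx, hZA x hx⟩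
    -- saturated sets strictly above `B'`
    have htop : ∀ D, D ∈ Q r A B → B' ⊆ D → D = B' := by
      intro D hD hs
      rw [mem_Q] at hD
      refine Finset.Subset.antisymm ?_ hs
      intro x hx
      rw [hB', Finset.mem_sdiff]
      refine ⟨hD.2.1.subset hx, fun hxZ => ?_⟩
      apply hD.2.1.2
      intro y hy
      by_cases hyZ : y ∈ Z
      · exact (hD.2.2 x y (hr.trans (hr.symm ((hZ x).1 hxZ)) ((hZ y).1 hyZ))).1 hx
      · exact hs (by rw [hB', Finset.mem_sdiff]; exact ⟨hy, hyZ⟩)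
    by_cases hAB' : A = B'
    · -- only the empty flag
      have hQ : Q r A B = ∅ := by
        apply Finset.eq_empty_of_forall_notMem
        intro D hD
        have h1 := mem_Q.1 hD
        have := htop D hD (by rw [← hAB']; exact h1.1.subset)
        exact h1.1.ne (hAB'.trans this.symm)
      refine ⟨0, y ∅, fun _ h => absurd rfl h, ?_⟩
      funext 𝒟
      have hb0 : bd (0 : Finset (Finset E) → ZMod 2) 𝒟 = 0 := by simp [bd]
      rw [Pi.add_apply, hb0, zero_add]
      by_cases hD : 𝒟 = ∅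
      · subst hD
        have : FullFlg r A B ∅ := by
          refine ⟨⟨by simp, by simp, by simp, by simp⟩, ?_⟩
          intro x hxB hxA y hyB hyA _
          have hxZ : x ∈ Z := by
            by_contra hn
            exact hxA (hAB' ▸ Finset.mem_sdiff.2 ⟨hxB, hn⟩)
          have hyZ : y ∈ Z := by
            by_contra hn
            exact hyA (hAB' ▸ Finset.mem_sdiff.2 ⟨hyB, hn⟩)
          exact hr.trans (hr.symm ((hZ x).1 hxZ)) ((hZ y).1 hyZ)
        rw [full, if_pos this]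
      · have h1 : y 𝒟 = 0 := by
          by_contra hn
          have := (hy _ hn).1
          rw [hQ] at this
          exact hD (Finset.subset_empty.1 this)
        have h2 : ¬ FullFlg r A B 𝒟 := by
          intro hf
          have := (flg_iff.1 hf.1).1
          rw [hQ] at this
          exact hD (Finset.subset_empty.1 this)
        rw [h1, full, if_neg h2]
    · have hAB'' : A ⊂ B' := Finset.ssubset_iff_subset_ne.2 ⟨hAB's, hAB'⟩
      have hB'Q : B' ∈ Q r A B := mem_Q.2 ⟨hAB'', hB'B, hB's⟩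
      have hcard' : (B' \ A).card ≤ n := by
        have : B' \ A ⊂ B \ A := by
          refine Finset.ssubset_iff_subset_ne.2 ⟨Finset.sdiff_subset_sdiff hB'B.subset
            (Finset.Subset.refl _), ?_⟩
          intro he
          have h1 : x0 ∈ B \ A := Finset.mem_sdiff.2 ⟨hx0B, hx0A⟩
          rw [← he, Finset.mem_sdiff, hB', Finset.mem_sdiff] at h1
          exact h1.1.2 hx0Z
        have := Finset.card_lt_card this
        omega
      have hLmem : ∀ D, D ∈ Q r A B' ↔ D ∈ Q r A B ∧ D ≠ B' ∧ Cm D B' := by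
        intro D
        constructor
        · intro hD
          have := mem_Q.1 hD
          exact ⟨mem_Q.2 ⟨this.1, this.2.1.trans hB'B, this.2.2⟩, this.2.1.ne,
            Or.inl this.2.1.subset⟩
        · rintro ⟨h1, h2, h3⟩
          rcases h3 with h3 | h3
          · have := mem_Q.1 h1
            exact mem_Q.2 ⟨this.1, Finset.ssubset_iff_subset_ne.2 ⟨h3, h2⟩, this.2.2⟩
          · exact absurd (htop D h1 h3) h2
      have hins : insert B' ((Q r A B).erase B') = Q r A B := Finset.insert_erase hB'Q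
      have hy' : ∀ 𝒟, y 𝒟 ≠ 0 → Ch Cm (insert B' ((Q r A B).erase B')) 𝒟 := by
        rw [hins]; exact hy
      obtain ⟨z', c', hz', hzc⟩ := ih B' hcard' hAB'' hB's (slice B' y)
        (slice_supp hy' _ (fun D hD hne hc => (hLmem D).2 ⟨Finset.mem_of_mem_erase hD, hne, hc⟩))
        (slice_bd hb)
      have hff : ∀ 𝒟, B' ∈ 𝒟 → (FullFlg r A B' (𝒟.erase B') ↔ FullFlg r A B 𝒟) := by
        intro 𝒟 hmem
        constructor
        · intro h
          have hC := flg_iff.1 h.1
          refine ⟨flg_iff.2 ⟨?_, ?_⟩, ?_⟩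
          · intro D hD
            by_cases e : D = B'
            · rw [e]; exact hB'Q
            · exact ((hLmem D).1 (hC.1 (Finset.mem_erase.2 ⟨e, hD⟩))).1
          · intro D hD D' hD'
            by_cases e : D = B'
            · by_cases e' : D' = B'
              · subst e; subst e'; exact Cm.refl _
              · rw [e]
                exact Cm.symm _ _ ((hLmem D').1 (hC.1 (Finset.mem_erase.2 ⟨e', hD'⟩))).2.2
            · by_cases e' : D' = B'
              · rw [e']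
                exact ((hLmem D).1 (hC.1 (Finset.mem_erase.2 ⟨e, hD⟩))).2.2
              · exact hC.2 D (Finset.mem_erase.2 ⟨e, hD⟩) D' (Finset.mem_erase.2 ⟨e', hD'⟩)
          · intro x hxB hxA w hwB hwA hs
            by_cases hx : x ∈ B'
            · exact h.2 x hx hxA w ((hs B' hmem).1 hx) hwA
                (fun D hD => hs D (Finset.mem_of_mem_erase hD))
            · have hw : w ∉ B' := fun a => hx ((hs B' hmem).2 a)
              have hxZ : x ∈ Z := by
                by_contra hn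
                exact hx (Finset.mem_sdiff.2 ⟨hxB, hn⟩)
              have hwZ : w ∈ Z := by
                by_contra hn
                exact hw (Finset.mem_sdiff.2 ⟨hwB, hn⟩)
              exact hr.trans (hr.symm ((hZ x).1 hxZ)) ((hZ w).1 hwZ)
        · intro h
          have hC := flg_iff.1 h.1
          refine ⟨flg_iff.2 ⟨?_, ?_⟩, ?_⟩
          · intro D hD
            rw [Finset.mem_erase] at hD
            exact (hLmem D).2 ⟨hC.1 hD.2, hD.1, hC.2 D hD.2 B' hmem⟩
          · intro D hD D' hD'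
            exact hC.2 D (Finset.mem_of_mem_erase hD) D' (Finset.mem_of_mem_erase hD')
          · intro x hxB hxA w hwB hwA hs
            refine h.2 x (hB'B.subset hxB) hxA w (hB'B.subset hwB) hwA ?_
            intro D hD
            by_cases e : D = B'
            · rw [e]; exact ⟨fun _ => hwB, fun _ => hxB⟩
            · exact hs D (Finset.mem_erase.2 ⟨e, hD⟩)
      obtain ⟨z, h1, h2⟩ := reduce (cmp := Cm) (p := B') (C := (Q r A B).erase B')
        (L := Q r A B') (e := full r A B c') (Finset.notMem_erase _ _)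
        (fun D hD => by
          have := (hLmem D).1 hD
          exact ⟨Finset.mem_erase.2 ⟨this.2.1, this.1⟩, this.2.2, Cm.symm _ _ this.2.2⟩)
        (Cm.refl _) hy' hb hz'
        (fun 𝒟 h => by
          rw [hins]
          exact flg_iff.1 (full_supp 𝒟 h).1)
        (full_bd hr hA hB c') (by
          intro 𝒟 hmem
          have h3 : y 𝒟 = slice B' y (𝒟.erase B') := by
            rw [slice, if_neg (Finset.notMem_erase _ _), Finset.insert_erase hmem]
          rw [h3, hzc, Pi.add_apply]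
          congr 1
          unfold full
          simp only [hff 𝒟 hmem])
        (acyc_part hx0B hx0A hA hB hZ hr rfl hAB' hAB)
      rw [hins] at h1
      exact ⟨z, c', h1, h2⟩

open Classical in
theorem flags (r : E → E → Prop) (hr : Equivalence r) (A B : Finset E) (hAB : A ⊂ B)
    (hA : ∀ x y, r x y → (x ∈ A ↔ y ∈ A)) (hB : ∀ x y, r x y → (x ∈ B ↔ y ∈ B))
    (y : Finset (Finset E) → ZMod 2) (k : ℕ)
    (hy : ∀ 𝒟, y 𝒟 ≠ 0 → Flg r A B 𝒟 ∧ 𝒟.card = k)
    (hc : ∀ 𝒟, Flg r A B 𝒟 →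
      ∑ D ∈ Finset.univ.filter (fun D => D ∉ 𝒟), y (insert D 𝒟) = 0) :
    ∃ (z : Finset (Finset E) → ZMod 2) (c : ZMod 2),
      (∀ 𝒟, z 𝒟 ≠ 0 → Flg r A B 𝒟 ∧ 𝒟.card = k + 1) ∧
      (c ≠ 0 → ∀ 𝒟, FullFlg r A B 𝒟 → 𝒟.card = k) ∧
      ∀ 𝒟, Flg r A B 𝒟 → y 𝒟 =
        ∑ D ∈ Finset.univ.filter (fun D => D ∉ 𝒟), z (insert D 𝒟) +
        (if FullFlg r A B 𝒟 then c else 0) := by
  have hbd : bd y = 0 := by
    funext 𝒟
    by_cases h : Flg r A B 𝒟
    · exact hc 𝒟 h
    · by_contra hn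
      exact h (flg_iff.2 (bd_supp (fun 𝒟 h => flg_iff.1 (hy 𝒟 h).1) 𝒟 hn))
  obtain ⟨z, c, h1, h2⟩ := main hr A hA (B \ A).card B le_rfl hAB hB y
    (fun 𝒟 h => flg_iff.1 (hy 𝒟 h).1) hbd
  have hcard : c ≠ 0 → ∀ 𝒟, FullFlg r A B 𝒟 → 𝒟.card = k := by
    intro hc0 𝒟 hf
    by_contra hn
    apply hc0
    have h3 : y 𝒟 = 0 := by
      by_contra h'
      exact hn (hy 𝒟 h').2
    have h4 : bd z 𝒟 = 0 := by
      apply Finset.sum_eq_zero
      intro D hD
      simp only [Finset.mem_filter, Finset.mem_univ, true_and] at hD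
      by_contra h'
      exact full_max hf hD (flg_iff.2 (h1 _ h'))
    have h5 := congrFun h2 𝒟
    rw [Pi.add_apply, h3, h4, full, if_pos hf, zero_add] at h5
    exact h5.symm
  refine ⟨fun 𝒟 => if 𝒟.card = k + 1 then z 𝒟 else 0, c, ?_, hcard, ?_⟩
  · intro 𝒟 h
    by_cases hk : 𝒟.card = k + 1
    · simp only [hk, if_true] at h
      exact ⟨flg_iff.2 (h1 𝒟 h), hk⟩
    · simp [hk] at h
  · intro 𝒟 hD
    have h5 := congrFun h2 𝒟
    rw [Pi.add_apply] at h5
    by_cases hk : 𝒟.card = k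
    · rw [h5]
      congr 1
      refine Finset.sum_congr rfl (fun D hD' => ?_)
      simp only [Finset.mem_filter, Finset.mem_univ, true_and] at hD'
      have h6 : (insert D 𝒟).card = k + 1 := by rw [Finset.card_insert_of_notMem hD', hk]
      simp only [h6, if_true]
    · have h3 : y 𝒟 = 0 := by
        by_contra h'
        exact hk (hy 𝒟 h').2
      rw [h3, Finset.sum_eq_zero, zero_add]
      · by_cases hf : FullFlg r A B 𝒟
        · rw [if_pos hf]
          by_contra hne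
          exact hk (hcard (fun e => hne e.symm) 𝒟 hf)
        · rw [if_neg hf]
      · intro D hD'
        simp only [Finset.mem_filter, Finset.mem_univ, true_and] at hD'
        have h6 : ¬ (insert D 𝒟).card = k + 1 := by
          rw [Finset.card_insert_of_notMem hD']; omega
        simp only [h6, if_false]

end flags

end L1
end Pool.Agent.helper20.Sz
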