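import Pool.Agent.helper20.Sz.B1

/-!
# Reduction of `d_AC² = 0` to bigons of loops (module SZ-YYa of MP_e07446_gt)
-/

open scoped symmDiff

namespace Pool.Agent.helper20.Sz
namespace YYa

section sums

variable {X M : Type} [DecidableEq X] [AddCommMonoid M]

theorem sum_swap (G : Finset X) (F : Finset X → Finset X → M) :
    ∑ A ∈ G.powerset, ∑ A' ∈ (G \ A).powerset, F A A' =
      ∑ A' ∈ G.powerset, ∑ A ∈ (G \ A').powerset, F A A' := by
  apply Finset.sum_comm'
  intro A A'
  simp only [Finset.mem_powerset, Finset.subset_sdiff]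
  constructor
  · rintro ⟨h1, h2, h3⟩
    exact ⟨⟨h1, h3.symm⟩, h2⟩
  · rintro ⟨⟨h1, h3⟩, h2⟩
    exact ⟨h1, h2, h3.symm⟩

theorem sum_compl (S : Finset X) (f : Finset X → M) :
    ∑ A ∈ S.powerset, f A = ∑ H ∈ S.powerset, f (S \ H) := by
  refine Finset.sum_nbij' (fun A => S \ A) (fun H => S \ H) ?_ ?_ ?_ ?_ ?_
  · intro A _; simp
  · intro A _; simp
  · intro A hA
    exact Finset.sdiff_sdiff_eq_self (Finset.mem_powerset.1 hA)
  · intro A hA
    exact Finset.sdiff_sdiff_eq_self (Finset.mem_powerset.1 hA)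
  · intro A hA
    rw [Finset.sdiff_sdiff_eq_self (Finset.mem_powerset.1 hA)]

theorem sum_third (G : Finset X) (F : Finset X → Finset X → M) :
    ∑ A ∈ G.powerset, ∑ A' ∈ (G \ A).powerset, F A A' =
      ∑ H ∈ G.powerset, ∑ A ∈ (G \ H).powerset, F A ((G \ H) \ A) := by
  calc ∑ A ∈ G.powerset, ∑ A' ∈ (G \ A).powerset, F A A'
      = ∑ A ∈ G.powerset, ∑ H ∈ (G \ A).powerset, F A ((G \ A) \ H) :=
        Finset.sum_congr rfl (fun A _ => sum_compl _ _)
    _ = ∑ H ∈ G.powerset, ∑ A ∈ (G \ H).powerset, F A ((G \ A) \ H) :=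
        sum_swap G (fun A H => F A ((G \ A) \ H))
    _ = _ := Finset.sum_congr rfl (fun H _ => Finset.sum_congr rfl (fun A _ => by
        rw [sdiff_sdiff_comm]))

end sums

variable {X E : Type} [DecidableEq X] [Finite E] {K : Cube X E} {eta : X → Bool}

open Classical in
/-- indicator -/
noncomputable def chi (p : Prop) : ZMod 2 := if p then 1 else 0

theorem chi_eq (p : Prop) [Decidable p] : (if p then (1 : ZMod 2) else 0) = chi p := by
  unfold chi
  by_cases h : p <;> simp [h]

theorem chi_one {p : Prop} (h : p) : chi p = 1 := by simp [chi, h]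

theorem chi_zero {p : Prop} (h : ¬ p) : chi p = 0 := by simp [chi, h]

theorem chi_and (p q : Prop) : chi (p ∧ q) = chi p * chi q := by
  unfold chi
  by_cases hp : p <;> by_cases hq : q <;> simp [hp, hq]

theorem flip_sdiff {v A G : Finset X} (h : A ⊆ G) : (v ∆ A) ∆ (G \ A) = v ∆ G := by
  rw [symmDiff_assoc]
  congr 1
  ext x
  simp only [Finset.mem_symmDiff, Finset.mem_sdiff]
  have := @h x
  tauto

theorem hom_flip {v A G : Finset X} (hG : Hom v G) : Hom (v ∆ A) (G \ A) := by
  intro c hc c' hc'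
  rw [Finset.mem_sdiff] at hc hc'
  simp only [Finset.mem_symmDiff, hc.2, hc'.2, not_false_eq_true, and_true, false_and, or_false]
  exact hG c hc.1 c' hc'.1

theorem hom_sub {v A G : Finset X} (hG : Hom v G) : Hom v (G \ A) := by
  intro c hc c' hc'
  exact hG c (Finset.mem_sdiff.1 hc).1 c' (Finset.mem_sdiff.1 hc').1

/-- the sum in `YYP` -/
noncomputable def YY (K : Cube X E) (s0 : Bool) (v G : Finset X) : ZMod 2 :=
  ∑ A ∈ G.powerset, chi (K.AC s0 v A) * chi (K.AC s0 (v ∆ A) (G \ A))

/-- all arcs of `H` are good -/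
def Good (K : Cube X E) (f : E → ℕ) (H : Finset X) : Prop := ∀ c ∈ H, f (K.head c) < f (K.tail c)

/-- `f` does not distinguish the ends of the arcs of `H` -/
def Eqf (K : Cube X E) (f : E → ℕ) (H : Finset X) : Prop := ∀ c ∈ H, f (K.tail c) = f (K.head c)

theorem gip (s0 : Bool) (hGI : K.GIP s0) (v G : Finset X) (f : E → ℕ) (hG : Hom v G)
    (hf : ∀ x y, K.same (v ∆ G) x y → f x = f y) :
    ∑ A ∈ G.powerset, chi (K.AC s0 v A) * (chi (Good K f (G \ A)) * chi (K.Spl (v ∆ A) (G \ A))) =
    ∑ A ∈ G.powerset, chi (K.AC s0 (v ∆ (G \ A)) A) * (chi (Good K f (G \ A)) *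
      (chi (Eqf K f A) * chi (K.Spl v (G \ A)))) := by
  have := hGI v G f hG hf
  simp only [← chi_and]
  simp only [chi_eq] at this
  exact this

omit [Finite E] in
theorem yy_eq (s0 : Bool) (v G : Finset X) :
    open Classical in (∑ A ∈ G.powerset, if K.AC s0 v A ∧ K.AC s0 (v ∆ A) (G \ A)
      then (1 : ZMod 2) else 0) = YY K s0 v G := by
  unfold YY
  simp only [← chi_and, chi_eq]

theorem step (hK : K.IsCore) (s0 : Bool) (hGI : K.GIP s0) (v G : Finset X) (hG : Hom v G)
    (f : E → ℕ) (hf : ∀ x y, K.same (v ∆ G) x y → f x = f y) :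
    ∑ H ∈ G.powerset, YY K s0 v (G \ H) * (chi (K.Spl (v ∆ (G \ H)) H) * chi (Good K f H)) =
    ∑ H ∈ G.powerset, (chi (K.Spl v H) * chi (Good K f H) * chi (Eqf K f (G \ H))) *
      YY K s0 (v ∆ H) (G \ H) := by
  -- the triple sum
  have h1 : ∑ H ∈ G.powerset, YY K s0 v (G \ H) *
      (chi (K.Spl (v ∆ (G \ H)) H) * chi (Good K f H)) =
      ∑ A ∈ G.powerset, ∑ A' ∈ (G \ A).powerset, chi (K.AC s0 v A) *
        (chi (K.AC s0 (v ∆ A) A') * (chi (Good K f ((G \ A) \ A')) *
          chi (K.Spl ((v ∆ A) ∆ A') ((G \ A) \ A')))) := by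
    rw [sum_third]
    refine Finset.sum_congr rfl (fun H hH => ?_)
    rw [Finset.mem_powerset] at hH
    rw [YY, Finset.sum_mul]
    refine Finset.sum_congr rfl (fun A hA => ?_)
    rw [Finset.mem_powerset] at hA
    have e1 : (G \ A) \ ((G \ H) \ A) = H := by
      ext x
      simp only [Finset.mem_sdiff]
      have a := @hH x
      have b := @hA x
      simp only [Finset.mem_sdiff] at b
      tauto
    rw [e1, flip_sdiff hA]
    ring
  have h2 : ∀ A ∈ G.powerset, ∑ A' ∈ (G \ A).powerset, chi (K.AC s0 v A) *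
        (chi (K.AC s0 (v ∆ A) A') * (chi (Good K f ((G \ A) \ A')) *
          chi (K.Spl ((v ∆ A) ∆ A') ((G \ A) \ A')))) =
      ∑ A' ∈ (G \ A).powerset, chi (K.AC s0 v A) *
        (chi (K.AC s0 ((v ∆ A) ∆ ((G \ A) \ A')) A') * (chi (Good K f ((G \ A) \ A')) *
      (chi (Eqf K f A') * chi (K.Spl (v ∆ A) ((G \ A) \ A'))))) := by
    intro A hA
    rw [Finset.mem_powerset] at hA
    rw [← Finset.mul_sum, ← Finset.mul_sum]
    congr 1
    exact gip s0 hGI (v ∆ A) (G \ A) f (hom_flip hG) (by rw [flip_sdiff hA]; exact hf)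
  rw [h1, Finset.sum_congr rfl h2, sum_swap]
  have h3 : ∀ A' ∈ G.powerset, ∑ A ∈ (G \ A').powerset, chi (K.AC s0 v A) *
        (chi (K.AC s0 ((v ∆ A) ∆ ((G \ A) \ A')) A') * (chi (Good K f ((G \ A) \ A')) *
      (chi (Eqf K f A') * chi (K.Spl (v ∆ A) ((G \ A) \ A'))))) =
      ∑ A ∈ (G \ A').powerset, (chi (Eqf K f A') * chi (K.AC s0 (v ∆ (G \ A')) A')) *
        (chi (K.AC s0 (v ∆ ((G \ A') \ A)) A) * (chi (Good K f ((G \ A') \ A)) *
      (chi (Eqf K f A) * chi (K.Spl v ((G \ A') \ A))))) := by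
    intro A' hA'
    rw [Finset.mem_powerset] at hA'
    by_cases hE : Eqf K f A'
    · have h4 : ∀ A ∈ (G \ A').powerset, chi (K.AC s0 v A) *
        (chi (K.AC s0 ((v ∆ A) ∆ ((G \ A) \ A')) A') * (chi (Good K f ((G \ A) \ A')) *
        (chi (Eqf K f A') * chi (K.Spl (v ∆ A) ((G \ A) \ A'))))) =
        (chi (Eqf K f A') * chi (K.AC s0 (v ∆ (G \ A')) A')) *
        (chi (K.AC s0 v A) * (chi (Good K f ((G \ A') \ A)) *
          chi (K.Spl (v ∆ A) ((G \ A') \ A)))) := by
        intro A hA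
        rw [Finset.mem_powerset] at hA
        rw [sdiff_sdiff_comm, flip_sdiff hA]
        ring
      rw [Finset.sum_congr rfl h4, ← Finset.mul_sum, ← Finset.mul_sum]
      congr 1
      refine gip s0 hGI v (G \ A') f (hom_sub hG) ?_
      have e1 : v ∆ (G \ A') = (v ∆ G) ∆ A' := by
        rw [symmDiff_assoc]
        congr 1
        ext x
        simp only [Finset.mem_symmDiff, Finset.mem_sdiff]
        have := @hA' x
        tauto
      rw [e1]
      exact B1.inv_flip hK f (v ∆ G) A' hf hE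
    · have : chi (Eqf K f A') = 0 := by simp [chi, hE]
      simp [this]
  rw [Finset.sum_congr rfl h3]
  rw [← sum_swap, sum_third]
  refine Finset.sum_congr rfl (fun H hH => ?_)
  rw [Finset.mem_powerset] at hH
  rw [YY, Finset.mul_sum]
  refine Finset.sum_congr rfl (fun A hA => ?_)
  rw [Finset.mem_powerset] at hA
  have e1 : (G \ ((G \ H) \ A)) \ A = H := by
    ext x
    simp only [Finset.mem_sdiff]
    have a := @hH x
    have b := @hA x
    simp only [Finset.mem_sdiff] at b
    tauto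
  have e2 : v ∆ (G \ ((G \ H) \ A)) = (v ∆ H) ∆ A := by
    rw [symmDiff_assoc]
    congr 1
    ext x
    simp only [Finset.mem_symmDiff, Finset.mem_sdiff]
    have a := @hH x
    have b := @hA x
    simp only [Finset.mem_sdiff] at b
    tauto
  have e3 : chi (Eqf K f (G \ H)) = chi (Eqf K f A) * chi (Eqf K f ((G \ H) \ A)) := by
    rw [← chi_and]
    congr 1
    apply propext
    constructor
    · intro h
      exact ⟨fun c hc => h c (hA hc), fun c hc => h c (Finset.mem_sdiff.1 hc).1⟩
    · rintro ⟨h1, h2⟩ c hc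
      by_cases hcA : c ∈ A
      · exact h1 c hcA
      · exact h2 c (Finset.mem_sdiff.2 ⟨hc, hcA⟩)
  rw [e1, e2, e3]
  ring

omit [Finite E] in
theorem spl_empty (v : Finset X) : K.Spl v ∅ := by
  have : v ∆ ∅ = v := symmDiff_bot v
  simp [Cube.Spl, this]

open Classical in
theorem YYa (hK : K.IsSys eta) (s0 : Bool) (hGI : K.GIP s0)
    (hb : ∀ v G : Finset X, Hom v G → (∀ c ∈ G, K.Loop (v ∆ G) c) →
      (∑ A ∈ G.powerset, if K.AC s0 v A ∧ K.AC s0 (v ∆ A) (G \ A) then (1 : ZMod 2) else 0) = 0) :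
    K.YYP s0 := by
  have main : ∀ (n : ℕ) (v G : Finset X), G.card ≤ n → Hom v G → YY K s0 v G = 0 := by
    intro n
    induction n with
    | zero =>
      intro v G hc hG
      have : G = ∅ := Finset.card_eq_zero.1 (Nat.le_zero.1 hc)
      subst this
      rw [← yy_eq]
      exact hb v ∅ hG (by simp)
    | succ n ih =>
      intro v G hcard hG
      by_cases hl : ∀ c ∈ G, K.Loop (v ∆ G) c
      · rw [← yy_eq]; exact hb v G hG hl
      push Not at hl
      obtain ⟨c, hc, hnl⟩ := hl
      have heq := hK.eqv (v ∆ G)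
      set f : E → ℕ := fun x => if K.same (v ∆ G) x (K.tail c) then 1 else 0 with hf
      have hfc : ∀ x y, K.same (v ∆ G) x y → f x = f y := by
        intro x y hxy
        simp only [hf]
        have : K.same (v ∆ G) x (K.tail c) ↔ K.same (v ∆ G) y (K.tail c) :=
          ⟨fun a => heq.trans (heq.symm hxy) a, fun a => heq.trans hxy a⟩
        simp only [this]
      have hft : f (K.tail c) ≠ f (K.head c) := by
        have h1 : K.same (v ∆ G) (K.tail c) (K.tail c) := heq.refl _
        have h2 : ¬ K.same (v ∆ G) (K.head c) (K.tail c) := fun a => hnl (heq.symm a)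
        simp [hf, h1, h2]
      have hs := step hK.toIsCore s0 hGI v G hG f hfc
      rw [Finset.sum_eq_single ∅, Finset.sum_eq_single ∅] at hs
      · have h1 : chi (Eqf K f (G \ ∅)) = 0 :=
          chi_zero fun h => hft (h c (by simpa using hc))
        have h2 : chi (K.Spl (v ∆ (G \ ∅)) ∅) = 1 := chi_one (spl_empty _)
        have h3 : chi (Good K f ∅) = 1 := chi_one (by intro c hc; simp at hc)
        rw [h1, h2, h3] at hs
        simpa using hs
      · intro H hH hne
        rw [Finset.mem_powerset] at hH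
        have hlt : (G \ H).card ≤ n := by
          have h1 := Finset.card_sdiff_add_card_eq_card hH
          have h2 : 0 < H.card := Finset.card_pos.2 (Finset.nonempty_iff_ne_empty.2 hne)
          omega
        rw [ih (v ∆ H) (G \ H) hlt (hom_flip hG), mul_zero]
      · intro h; exact absurd (Finset.empty_mem_powerset _) h
      · intro H hH hne
        rw [Finset.mem_powerset] at hH
        have hlt : (G \ H).card ≤ n := by
          have h1 := Finset.card_sdiff_add_card_eq_card hH
          have h2 : 0 < H.card := Finset.card_pos.2 (Finset.nonempty_iff_ne_empty.2 hne)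
          omega
        rw [ih v (G \ H) hlt (hom_sub hG), zero_mul]
      · intro h; exact absurd (Finset.empty_mem_powerset _) h
  intro v G hG
  have := main G.card v G le_rfl hG
  rw [← yy_eq] at this
  exact this

end YYa
end Pool.Agent.helper20.Sz
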